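import Mathlib

/-!
# MP_28ad66_co: `R(s,q) = 2^(q - O(q^(1 - 1/s)))` for every fixed `s ≥ 2`

For every `s ≥ 2` we prove `2^(q - c q^(1-1/s)) ≤ R(s,q) ≤ 2^q` with a constant `c = c(s)`.  The
upper bound is the known one (multilinear functions).  For the lower bound we build, for each
nonzero difference `d` separately, a code of `2^(q - O(log q))` balanced words in which any two
different words show the difference `d`; then the codes of two families of differences are combined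
by covering all balanced words by translates of each code and by a chain of blocks, where the block
length is chosen so that the total loss is a power `q^(k/(k+1))` after `k` differences.
-/

set_option autoImplicit false

namespace Pool.Agent.Results.MP_28ad66_co.ExponentialRate

open Finset Filter Topology

/-- A finite family of vectors in `Z_s^q` is covering if for any two distinct members `v, w`
the difference `v - w` takes every value of `Z_s` in some coordinate. -/
def IsCovering (s q : ℕ) (F : Finset (Fin q → ZMod s)) : Prop :=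
  ∀ v ∈ F, ∀ w ∈ F, v ≠ w → ∀ a : ZMod s, ∃ i : Fin q, v i - w i = a

/-- `R(s,q)`: the largest size of a covering family in `Z_s^q`. -/
noncomputable def R (s q : ℕ) : ℕ :=
  sSup {n : ℕ | ∃ F : Finset (Fin q → ZMod s), IsCovering s q F ∧ F.card = n}

/-! ### Linear algebra -/

/-- If vectors `x i ∈ ℚ^q` (`i ∈ ι`) and `y i` satisfy `∏ⱼ (x i j - y k j) = 0` for `i ≠ k`
and `≠ 0` for `i = k`, then `|ι| ≤ 2^q`. -/
theorem card_le_two_pow {ι : Type*} [Fintype ι] [DecidableEq ι] {q : ℕ}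
    (x y : ι → Fin q → ℚ)
    (hd : ∀ i, ∏ j, (x i j - y i j) ≠ 0)
    (ho : ∀ i k, i ≠ k → ∏ j, (x i j - y k j) = 0) :
    Fintype.card ι ≤ 2 ^ q := by
  classical
  let L : ι → (Finset (Fin q) → ℚ) := fun i S => ∏ j ∈ S, x i j
  have hpair : ∀ i k, ∏ j, (x i j - y k j) =
      ∑ S : Finset (Fin q), L i S * ∏ j ∈ Sᶜ, (- y k j) := by
    intro i k
    have h1 : ∏ j, (x i j - y k j) = ∏ j, (x i j + (- y k j)) := by
      simp [sub_eq_add_neg]
    rw [h1, Finset.prod_add]
    rw [Finset.powerset_univ]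
    refine Finset.sum_congr rfl ?_
    intro S _
    simp only [L]
    congr 1
  have hli : LinearIndependent ℚ L := by
    rw [Fintype.linearIndependent_iff]
    intro c hc k
    have h2 : ∑ i, c i * ∏ j, (x i j - y k j) = 0 := by
      have h3 : ∀ S : Finset (Fin q), ∑ i, c i * L i S = 0 := by
        intro S
        have := congrFun hc S
        simpa [Finset.sum_apply, smul_eq_mul] using this
      calc ∑ i, c i * ∏ j, (x i j - y k j)
          = ∑ i, c i * ∑ S : Finset (Fin q), L i S * ∏ j ∈ Sᶜ, (- y k j) := by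
            refine Finset.sum_congr rfl fun i _ => by rw [hpair]
        _ = ∑ i, ∑ S : Finset (Fin q), c i * (L i S * ∏ j ∈ Sᶜ, (- y k j)) := by
            refine Finset.sum_congr rfl fun i _ => by rw [Finset.mul_sum]
        _ = ∑ S : Finset (Fin q), ∑ i, c i * (L i S * ∏ j ∈ Sᶜ, (- y k j)) :=
            Finset.sum_comm
        _ = ∑ S : Finset (Fin q), (∑ i, c i * L i S) * ∏ j ∈ Sᶜ, (- y k j) := by
            refine Finset.sum_congr rfl fun S _ => ?_
            rw [Finset.sum_mul]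
            refine Finset.sum_congr rfl fun i _ => by ring
        _ = 0 := by simp [h3]
    rw [Finset.sum_eq_single k] at h2
    · exact (mul_eq_zero.mp h2).resolve_right (hd k)
    · intro i _ hik
      rw [ho i k hik, mul_zero]
    · simp
  have := hli.fintype_card_le_finrank
  simpa [Module.finrank_fintype_fun_eq_card] using this

/-! ### Codes of balanced words -/

/-- every letter occurs exactly `m` times in the word `x` -/
def Bal {ι : Type} [Fintype ι] {n : ℕ} (m : ℕ) (x : ι → Fin n) : Prop :=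
  ∀ a, (univ.filter (fun i => x i = a)).card = m

/-- for every relation `R` of the family `E`, any two different words of `C` show in some
position a pair of letters in the relation `R` -/
def Sep {ι : Type} {n : ℕ} (E : (Fin n → Fin n → Prop) → Prop)
    (C : Finset (ι → Fin n)) : Prop :=
  ∀ x ∈ C, ∀ y ∈ C, x ≠ y → ∀ R, E R → ∃ i, R (x i) (y i)

/-- a code of balanced words -/
def Code (ι : Type) [Fintype ι] {n : ℕ} (m : ℕ) (E : (Fin n → Fin n → Prop) → Prop)
    (C : Finset (ι → Fin n)) : Prop := (∀ x ∈ C, Bal m x) ∧ Sep E C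

theorem card_filter_equiv {ι κ : Type} [Fintype ι] [Fintype κ] (e : ι ≃ κ) (P : κ → Prop)
    [DecidablePred P] : (univ.filter (fun i => P (e i))).card = (univ.filter P).card := by
  classical
  rw [← card_map e.toEmbedding]
  congr 1
  ext j
  simp only [Finset.mem_map, mem_filter, mem_univ, true_and, Equiv.coe_toEmbedding]
  constructor
  · rintro ⟨i, hi, rfl⟩
    exact hi
  · intro hj
    exact ⟨e.symm j, by simpa using hj, by simp⟩

theorem Code.transport {ι κ : Type} [Fintype ι] [Fintype κ] [DecidableEq ι] [DecidableEq κ]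
    {n m : ℕ} {E : (Fin n → Fin n → Prop) → Prop} {C : Finset (ι → Fin n)} (h : Code ι m E C)
    (e : κ ≃ ι) : Code κ m E (C.image (fun x => x ∘ e)) ∧
      (C.image (fun x => x ∘ e)).card = C.card := by
  refine ⟨⟨?_, ?_⟩, ?_⟩
  · intro x hx a
    rw [mem_image] at hx
    obtain ⟨y, hy, rfl⟩ := hx
    have := h.1 y hy a
    rw [← this]
    exact card_filter_equiv e (fun i => y i = a)
  · intro x hx y hy hxy R hR
    rw [mem_image] at hx hy
    obtain ⟨x, hx, rfl⟩ := hx
    obtain ⟨y, hy, rfl⟩ := hy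
    obtain ⟨i, hi⟩ := h.2 x hx y hy (fun h => hxy (by rw [h])) R hR
    refine ⟨e.symm i, ?_⟩
    simpa using hi
  · apply card_image_of_injective
    intro x y hxy
    exact e.surjective.injective_comp_right hxy

/-- words made of blocks -/
def blk {q : ℕ} {ι : Type} {n : ℕ} (X : Fin q → ι → Fin n) : Fin q × ι → Fin n :=
  fun z => X z.1 z.2

theorem blk_inj {q : ℕ} {ι : Type} {n : ℕ} :
    Function.Injective (blk : (Fin q → ι → Fin n) → (Fin q × ι → Fin n)) := by
  intro X Y h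
  funext j i
  exact congrFun h (j, i)

theorem blk_bal {q : ℕ} {ι : Type} [Fintype ι] {n m : ℕ} {X : Fin q → ι → Fin n}
    (hX : ∀ j, Bal m (X j)) : Bal (q * m) (blk X) := by
  classical
  intro a
  have h1 : (univ.filter (fun z : Fin q × ι => blk X z = a)) =
      univ.biUnion (fun j => (univ.filter (fun i => X j i = a)).image (fun i => (j, i))) := by
    ext ⟨j, i⟩
    simp [blk]
  rw [h1, card_biUnion]
  · have h2 : ∀ j, ((univ.filter (fun i => X j i = a)).image (fun i => (j, i))).card = m := by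
      intro j
      rw [card_image_of_injective _ (fun x y h => (Prod.mk.inj h).2)]
      exact hX j a
    rw [sum_congr rfl (fun j _ => h2 j)]
    simp
  · intro j _ j' _ hjj'
    change Disjoint _ _
    rw [Finset.disjoint_left]
    intro z hz hz'
    rw [mem_image] at hz hz'
    obtain ⟨i, _, rfl⟩ := hz
    obtain ⟨i', _, h⟩ := hz'
    exact hjj' (Prod.mk.inj h).1.symm

theorem blk_sep {q : ℕ} {ι : Type} {n : ℕ} {X Y : Fin q → ι → Fin n}
    {R : Fin n → Fin n → Prop} (j : Fin q) (h : ∃ i, R (X j i) (Y j i)) :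
    ∃ z, R (blk X z) (blk Y z) := by
  obtain ⟨i, hi⟩ := h
  exact ⟨(j, i), hi⟩

/-- powers of codes -/
theorem Code.pow {t : ℕ} {n m : ℕ} {E : (Fin n → Fin n → Prop) → Prop}
    {C : Finset (Fin t → Fin n)}
    (h : Code (Fin t) m E C) (q : ℕ) : ∃ C' : Finset (Fin (q * t) → Fin n),
    Code (Fin (q * t)) (q * m) E C' ∧ C'.card = C.card ^ q := by
  classical
  set D : Finset (Fin q × Fin t → Fin n) := (Fintype.piFinset (fun _ : Fin q => C)).image blk
    with hD
  have hDc : D.card = C.card ^ q := by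
    rw [hD, card_image_of_injective _ blk_inj, Fintype.card_piFinset_const]
  have hDD : Code (Fin q × Fin t) (q * m) E D := by
    constructor
    · intro x hx
      rw [hD, mem_image] at hx
      obtain ⟨X, hX, rfl⟩ := hx
      rw [Fintype.mem_piFinset] at hX
      exact blk_bal (fun j => h.1 _ (hX j))
    · intro x hx y hy hxy R hR
      rw [hD, mem_image] at hx hy
      obtain ⟨X, hX, rfl⟩ := hx
      obtain ⟨Y, hY, rfl⟩ := hy
      rw [Fintype.mem_piFinset] at hX hY
      obtain ⟨j, hj⟩ : ∃ j, X j ≠ Y j := by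
        by_contra hcon
        push Not at hcon
        exact hxy (by rw [funext hcon])
      exact blk_sep j (h.2 _ (hX j) _ (hY j) hj R hR)
  obtain ⟨h1, h2⟩ := hDD.transport (finProdFinEquiv (m := q) (n := t)).symm
  exact ⟨_, h1, h2.trans hDc⟩

/-! ### Covering by translates -/

/-- all balanced words -/
noncomputable def WW (t n m : ℕ) : Finset (Fin t → Fin n) := by
  classical exact univ.filter (fun x => Bal m x)

theorem mem_WW {t n m : ℕ} {x : Fin t → Fin n} : x ∈ WW t n m ↔ Bal m x := by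
  classical
  simp [WW]

theorem bal_comp {t n m : ℕ} {x : Fin t → Fin n} (hx : Bal m x) (σ : Equiv.Perm (Fin t)) :
    Bal m (x ∘ σ) := by
  intro a
  rw [← hx a]
  exact card_filter_equiv σ (fun i => x i = a)

/-- the symmetric group acts transitively on the balanced words -/
theorem exists_perm {t n m : ℕ} {x y : Fin t → Fin n} (hx : Bal m x) (hy : Bal m y) :
    ∃ σ : Equiv.Perm (Fin t), x ∘ σ = y := by
  classical
  have h : ∀ a, Nonempty ({i // y i = a} ≃ {i // x i = a}) := by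
    intro a
    apply Fintype.card_eq.1
    rw [Fintype.card_subtype, Fintype.card_subtype, hx a, hy a]
  let e : ∀ a, {i // y i = a} ≃ {i // x i = a} := fun a => (h a).some
  let σ : Fin t ≃ Fin t :=
    (Equiv.sigmaFiberEquiv y).symm.trans ((Equiv.sigmaCongrRight e).trans (Equiv.sigmaFiberEquiv x))
  refine ⟨σ, ?_⟩
  funext i
  have h1 : σ i = (e (y i) ⟨i, rfl⟩).1 := rfl
  rw [Function.comp_apply, h1]
  exact (e (y i) ⟨i, rfl⟩).2

theorem count_perm {t n m : ℕ} {C : Finset (Fin t → Fin n)} (hC : C ⊆ WW t n m)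
    {x : Fin t → Fin n} (hx : x ∈ WW t n m) :
    (WW t n m).card * (univ.filter (fun σ : Equiv.Perm (Fin t) => x ∘ σ ∈ C)).card =
      (univ : Finset (Equiv.Perm (Fin t))).card * C.card := by
  classical
  have h1 : ∀ y ∈ WW t n m, (univ.filter (fun σ : Equiv.Perm (Fin t) => y ∘ σ ∈ C)).card =
      (univ.filter (fun σ : Equiv.Perm (Fin t) => x ∘ σ ∈ C)).card := by
    intro y hy
    obtain ⟨τ, hτ⟩ := exists_perm (mem_WW.1 hx) (mem_WW.1 hy)
    have : ∀ σ : Equiv.Perm (Fin t), y ∘ σ = x ∘ (Equiv.mulLeft τ σ) := by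
      intro σ
      rw [← hτ]
      rfl
    simp only [this]
    exact card_filter_equiv (Equiv.mulLeft τ) (fun σ : Equiv.Perm (Fin t) => x ∘ σ ∈ C)
  have h2 : ∀ σ ∈ (univ : Finset (Equiv.Perm (Fin t))),
      ((WW t n m).filter (fun y => y ∘ σ ∈ C)).card = C.card := by
    intro σ _
    rw [← card_image_of_injective (f := fun y : Fin t → Fin n => y ∘ σ) _
      σ.surjective.injective_comp_right]
    congr 1
    ext z
    simp only [mem_image, mem_filter]
    constructor
    · rintro ⟨y, ⟨_, hy⟩, rfl⟩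
      exact hy
    · intro hz
      refine ⟨z ∘ σ.symm, ⟨?_, ?_⟩, ?_⟩
      · exact mem_WW.2 (bal_comp (mem_WW.1 (hC hz)) σ.symm)
      · have : (z ∘ σ.symm) ∘ σ = z := by
          funext i
          simp
        rw [this]
        exact hz
      · funext i
        simp
  calc (WW t n m).card * (univ.filter (fun σ : Equiv.Perm (Fin t) => x ∘ σ ∈ C)).card
      = ∑ y ∈ WW t n m, (univ.filter (fun σ : Equiv.Perm (Fin t) => y ∘ σ ∈ C)).card := by
        rw [sum_congr rfl h1, sum_const, smul_eq_mul]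
    _ = ∑ σ ∈ (univ : Finset (Equiv.Perm (Fin t))),
        ((WW t n m).filter (fun y => y ∘ σ ∈ C)).card := by
        simp only [card_filter]
        rw [sum_comm]
    _ = _ := by rw [sum_congr rfl h2, sum_const, smul_eq_mul]

/-- The balanced words are covered by `K` translates of `C` if `K |C| > |W| log |W|`. -/
theorem cover {t n m K : ℕ} {C : Finset (Fin t → Fin n)} (hC : C ⊆ WW t n m)
    (hne : C.Nonempty)
    (hK : (WW t n m).card * Real.log (WW t n m).card < K * C.card) :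
    ∃ τ : Fin K → Equiv.Perm (Fin t), ∀ x ∈ WW t n m, ∃ j, x ∘ τ j ∈ C := by
  classical
  by_contra hcon
  push Not at hcon
  set N := (WW t n m).card with hN
  set s := (univ : Finset (Equiv.Perm (Fin t))).card with hs
  have hN0 : 0 < N := by
    rw [hN]
    exact card_pos.2 (hne.mono hC)
  have hN0' : (0 : ℝ) < N := by exact_mod_cast hN0
  have hs0 : 0 < s := by rw [hs]; exact card_pos.2 univ_nonempty
  have hs0' : (0 : ℝ) < s := by exact_mod_cast hs0
  have h1 : (univ : Finset (Fin K → Equiv.Perm (Fin t))) ⊆ (WW t n m).biUnion (fun x =>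
      Fintype.piFinset (fun _ => univ.filter (fun σ : Equiv.Perm (Fin t) => ¬ x ∘ σ ∈ C))) := by
    intro τ _
    obtain ⟨x, hx, h⟩ := hcon τ
    rw [mem_biUnion]
    refine ⟨x, hx, ?_⟩
    rw [Fintype.mem_piFinset]
    intro j
    rw [mem_filter]
    exact ⟨mem_univ _, h j⟩
  have h2 := (card_le_card h1).trans card_biUnion_le
  have h3 : ((univ : Finset (Fin K → Equiv.Perm (Fin t))).card : ℝ) = (s : ℝ) ^ K := by
    rw [card_univ, Fintype.card_fun, Fintype.card_fin, hs, card_univ]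
    push_cast
    rfl
  have h4 : ∀ x ∈ WW t n m, ((Fintype.piFinset (fun _ : Fin K =>
      univ.filter (fun σ : Equiv.Perm (Fin t) => ¬ x ∘ σ ∈ C))).card : ℝ) =
      (s : ℝ) ^ K * (1 - C.card / N) ^ K := by
    intro x hx
    rw [Fintype.card_piFinset_const]
    push_cast
    rw [← mul_pow]
    congr 1
    have h5 := count_perm hC hx
    rw [← hN, ← hs] at h5
    have h6 := card_filter_add_card_filter_not (s := (univ : Finset (Equiv.Perm (Fin t))))
      (fun σ => x ∘ σ ∈ C)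
    rw [← hs] at h6
    have h5' : (N : ℝ) * ((univ.filter (fun σ : Equiv.Perm (Fin t) => x ∘ σ ∈ C)).card : ℝ) =
      s * C.card := by exact_mod_cast h5
    have h6' : ((univ.filter (fun σ : Equiv.Perm (Fin t) => x ∘ σ ∈ C)).card : ℝ) +
      ((univ.filter (fun σ : Equiv.Perm (Fin t) => ¬ x ∘ σ ∈ C)).card : ℝ) = s := by
      exact_mod_cast h6
    field_simp
    nlinarith
  have h7 : (s : ℝ) ^ K ≤ N * ((s : ℝ) ^ K * (1 - C.card / N) ^ K) := by
    calc (s : ℝ) ^ K = ((univ : Finset (Fin K → Equiv.Perm (Fin t))).card : ℝ) := h3.symm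
      _ ≤ ((∑ x ∈ WW t n m, (Fintype.piFinset (fun _ : Fin K =>
          univ.filter (fun σ : Equiv.Perm (Fin t) => ¬ x ∘ σ ∈ C))).card : ℕ) : ℝ) := by
          exact_mod_cast h2
      _ = ∑ x ∈ WW t n m, (s : ℝ) ^ K * (1 - C.card / N) ^ K := by
          push_cast
          exact sum_congr rfl h4
      _ = N * ((s : ℝ) ^ K * (1 - C.card / N) ^ K) := by
          rw [sum_const, nsmul_eq_mul]
  have h8 : (1 : ℝ) ≤ N * (1 - C.card / N) ^ K := by
    have h9 : (0 : ℝ) < (s : ℝ) ^ K := by positivity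
    have h10 : (s : ℝ) ^ K * 1 ≤ (s : ℝ) ^ K * (N * (1 - C.card / N) ^ K) := by
      rw [mul_one]
      calc (s : ℝ) ^ K ≤ _ := h7
        _ = _ := by ring
    exact le_of_mul_le_mul_left h10 h9
  have hCN : (C.card : ℝ) ≤ N := by exact_mod_cast card_le_card hC
  have h11 : (1 - (C.card : ℝ) / N) ^ K ≤ Real.exp (-(K * C.card / N)) := by
    have h12 : 1 - (C.card : ℝ) / N ≤ Real.exp (-((C.card : ℝ) / N)) := by
      have := Real.add_one_le_exp (-((C.card : ℝ) / N))
      linarith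
    have h13 : 0 ≤ 1 - (C.card : ℝ) / N := by
      rw [sub_nonneg, div_le_one hN0']
      exact hCN
    calc (1 - (C.card : ℝ) / N) ^ K ≤ (Real.exp (-((C.card : ℝ) / N))) ^ K :=
          pow_le_pow_left₀ h13 h12 _
      _ = Real.exp (-(K * C.card / N)) := by
          rw [← Real.exp_nat_mul]
          congr 1
          ring
  have h14 : Real.log N < K * C.card / N := by
    rw [lt_div_iff₀ hN0', mul_comm]
    exact hK
  have h15 : N * Real.exp (-(K * C.card / N)) < 1 := by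
    have h16 : Real.exp (-(K * C.card / N)) < Real.exp (-Real.log N) :=
      Real.exp_lt_exp.2 (by linarith)
    rw [Real.exp_neg (Real.log N), Real.exp_log hN0'] at h16
    calc N * Real.exp (-(K * C.card / N)) < N * (N : ℝ)⁻¹ := mul_lt_mul_of_pos_left h16 hN0'
      _ = 1 := mul_inv_cancel₀ hN0'.ne'
  have h17 : (N : ℝ) * (1 - C.card / N) ^ K ≤ N * Real.exp (-(K * C.card / N)) :=
    mul_le_mul_of_nonneg_left h11 hN0'.le
  linarith

/-! ### The chain construction -/

theorem exists_big_fiber {α β : Type} [DecidableEq β] (s : Finset α) (T : Finset β) (f : α → β)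
    (hf : ∀ a ∈ s, f a ∈ T) (hT : T.Nonempty) :
    ∃ y ∈ T, s.card ≤ T.card * (s.filter (fun a => f a = y)).card := by
  obtain ⟨y, hy, hmax⟩ := exists_max_image T (fun y => (s.filter (fun a => f a = y)).card) hT
  refine ⟨y, hy, ?_⟩
  rw [card_eq_sum_card_fiberwise hf]
  calc ∑ b ∈ T, (s.filter (fun a => f a = b)).card
      ≤ ∑ _b ∈ T, (s.filter (fun a => f a = y)).card := sum_le_sum hmax
    _ = _ := by rw [sum_const, smul_eq_mul]

theorem chain {t n m K L : ℕ} {E₁ E₂ : (Fin n → Fin n → Prop) → Prop}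
    {C₁ C₂ : Finset (Fin t → Fin n)} (h₁ : Code (Fin t) m E₁ C₁) (h₂ : Code (Fin t) m E₂ C₂)
    (τ₁ τ₂ : Fin (K + 1) → Equiv.Perm (Fin t)) (hτ₁ : ∀ x ∈ WW t n m, ∃ j, x ∘ τ₁ j ∈ C₁)
    (hτ₂ : ∀ x ∈ WW t n m, ∃ j, x ∘ τ₂ j ∈ C₂) (hW : (WW t n m).Nonempty) :
    ∃ D : Finset (Fin ((L + 2) * t) → Fin n),
      Code (Fin ((L + 2) * t)) ((L + 2) * m) (fun R => E₁ R ∨ E₂ R) D ∧
      (WW t n m).card ^ (L + 2) ≤ (K + 1) ^ (L + 1) * (WW t n m).card ^ 2 * D.card := by
  classical
  have e1 : ∀ x : Fin t → Fin n, ∃ j : ZMod (K + 1), x ∈ WW t n m → x ∘ τ₁ j ∈ C₁ := by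
    intro x
    by_cases hx : x ∈ WW t n m
    · obtain ⟨j, hj⟩ := hτ₁ x hx
      exact ⟨j, fun _ => hj⟩
    · exact ⟨0, fun h => absurd h hx⟩
  have e2 : ∀ x : Fin t → Fin n, ∃ j : ZMod (K + 1), x ∈ WW t n m → x ∘ τ₂ j ∈ C₂ := by
    intro x
    by_cases hx : x ∈ WW t n m
    · obtain ⟨j, hj⟩ := hτ₂ x hx
      exact ⟨j, fun _ => hj⟩
    · exact ⟨0, fun h => absurd h hx⟩
  choose f₁ hf₁ using e1
  choose f₂ hf₂ using e2
  have sep : ∀ (C : Finset (Fin t → Fin n)) (E : (Fin n → Fin n → Prop) → Prop)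
      (_ : Code (Fin t) m E C)
      (σ : Equiv.Perm (Fin t)) (x y : Fin t → Fin n), x ∘ σ ∈ C → y ∘ σ ∈ C → x ≠ y →
      ∀ R, E R → ∃ i, R (x i) (y i) := by
    intro C E hC σ x y hx hy hxy R hR
    obtain ⟨i, hi⟩ := hC.2 _ hx _ hy (fun h => hxy (σ.surjective.injective_comp_right h)) R hR
    exact ⟨σ i, hi⟩
  set W := WW t n m with hWdef
  set S := Fintype.piFinset (fun _ : Fin (L + 2) => W) with hS
  set T : Finset ((Fin (L + 1) → ZMod (K + 1)) × ((Fin t → Fin n) × (Fin t → Fin n))) :=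
    univ ×ˢ (W ×ˢ W) with hT
  let Φ : (Fin (L + 2) → (Fin t → Fin n)) →
      ((Fin (L + 1) → ZMod (K + 1)) × ((Fin t → Fin n) × (Fin t → Fin n))) :=
    fun X => (fun j => f₂ (X j.succ) - f₁ (X j.castSucc), (X 0, X (Fin.last _)))
  have hΦ : ∀ X ∈ S, Φ X ∈ T := by
    intro X hX
    rw [hS, Fintype.mem_piFinset] at hX
    rw [hT, mem_product, mem_product]
    exact ⟨mem_univ _, hX _, hX _⟩
  have hTne : T.Nonempty := by
    obtain ⟨x, hx⟩ := hW
    exact ⟨(fun _ => 0, (x, x)), by rw [hT]; simp [hx]⟩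
  obtain ⟨y, _, hy⟩ := exists_big_fiber S T Φ hΦ hTne
  set D₀ := S.filter (fun X => Φ X = y) with hD₀
  have hcode : Code (Fin (L + 2) × Fin t) ((L + 2) * m) (fun R => E₁ R ∨ E₂ R)
      (D₀.image blk) := by
    constructor
    · intro x hx
      rw [mem_image] at hx
      obtain ⟨X, hX, rfl⟩ := hx
      rw [hD₀, mem_filter, hS, Fintype.mem_piFinset] at hX
      exact blk_bal (fun j => mem_WW.1 (hX.1 j))
    · intro x hx y' hy' hxy R hab
      rw [mem_image] at hx hy'
      obtain ⟨X, hX, rfl⟩ := hx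
      obtain ⟨Y, hY, rfl⟩ := hy'
      rw [hD₀, mem_filter, hS, Fintype.mem_piFinset] at hX hY
      have hXY : Φ X = Φ Y := hX.2.trans hY.2.symm
      have g1 : ∀ j : Fin (L + 1), f₂ (X j.succ) - f₁ (X j.castSucc) =
          f₂ (Y j.succ) - f₁ (Y j.castSucc) := fun j => congrFun (congrArg Prod.fst hXY) j
      have g2 : X 0 = Y 0 := congrArg (fun z => z.2.1) hXY
      have g3 : X (Fin.last _) = Y (Fin.last _) := congrArg (fun z => z.2.2) hXY
      set J := univ.filter (fun j => X j ≠ Y j) with hJ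
      have hJne : J.Nonempty := by
        by_contra hcon
        rw [not_nonempty_iff_eq_empty] at hcon
        apply hxy
        congr 1
        funext j
        by_contra hj
        have : j ∈ J := by rw [hJ, mem_filter]; exact ⟨mem_univ _, hj⟩
        rw [hcon] at this
        exact absurd this (notMem_empty _)
      have hnotJ : ∀ j, j ∉ J → X j = Y j := by
        intro j hj
        by_contra h
        exact hj (by rw [hJ, mem_filter]; exact ⟨mem_univ _, h⟩)
      rcases hab with hab | hab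
      · -- the last difference
        have hj := J.max'_mem hJne
        set j₁ := J.max' hJne with hj₁
        have hne : X j₁ ≠ Y j₁ := (mem_filter.1 hj).2
        have hl : j₁ ≠ Fin.last _ := fun h => hne (by rw [h]; exact g3)
        obtain ⟨j, hjj⟩ := Fin.exists_castSucc_eq.2 hl
        have h4 : j.succ ∉ J := by
          intro h
          have h5 := J.le_max' _ h
          rw [← hj₁, ← hjj] at h5
          exact absurd (Fin.castSucc_lt_succ (i := j)) (not_lt.2 h5)
        have h5 := g1 j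
        rw [hnotJ _ h4] at h5
        have h6 : f₁ (X j₁) = f₁ (Y j₁) := by
          rw [← hjj]
          exact sub_right_injective h5
        refine blk_sep j₁ (sep C₁ E₁ h₁ (τ₁ (f₁ (X j₁))) _ _ (hf₁ _ (hX.1 j₁)) ?_ hne R hab)
        rw [h6]
        exact hf₁ _ (hY.1 j₁)
      · -- the first difference
        have hj := J.min'_mem hJne
        set j₁ := J.min' hJne with hj₁
        have hne : X j₁ ≠ Y j₁ := (mem_filter.1 hj).2
        have hl : j₁ ≠ 0 := fun h => hne (by rw [h]; exact g2)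
        obtain ⟨j, hjj⟩ := Fin.exists_succ_eq.2 hl
        have h4 : j.castSucc ∉ J := by
          intro h
          have h5 := J.min'_le _ h
          rw [← hj₁, ← hjj] at h5
          exact absurd (Fin.castSucc_lt_succ (i := j)) (not_lt.2 h5)
        have h5 := g1 j
        rw [hnotJ _ h4] at h5
        have h6 : f₂ (X j₁) = f₂ (Y j₁) := by
          rw [← hjj]
          exact sub_left_injective h5
        refine blk_sep j₁ (sep C₂ E₂ h₂ (τ₂ (f₂ (X j₁))) _ _ (hf₂ _ (hX.1 j₁)) ?_ hne R hab)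
        rw [h6]
        exact hf₂ _ (hY.1 j₁)
  obtain ⟨h5, h6⟩ := hcode.transport (finProdFinEquiv (m := L + 2) (n := t)).symm
  refine ⟨_, h5, ?_⟩
  rw [h6, card_image_of_injective _ blk_inj]
  calc W.card ^ (L + 2) = S.card := by rw [hS, Fintype.card_piFinset_const]
    _ ≤ T.card * D₀.card := hy
    _ = (K + 1) ^ (L + 1) * W.card ^ 2 * D₀.card := by
        rw [hT, card_product, card_product, card_univ, Fintype.card_fun, ZMod.card,
          Fintype.card_fin, pow_two]

/-! ### A quantitative step -/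

theorem step_core {n m L : ℕ} {E₁ E₂ : (Fin n → Fin n → Prop) → Prop} {M : ℝ}
    (hM0 : 0 < M) {A₁ A₂ : Finset (Fin (n * m) → Fin n)}
    (hA₁ : Code (Fin (n * m)) m E₁ A₁) (hA₂ : Code (Fin (n * m)) m E₂ A₂)
    (ha₁ : M ≤ A₁.card) (ha₂ : M ≤ A₂.card) :
    ∃ D : Finset (Fin (n * ((L + 2) * m)) → Fin n),
      Code (Fin (n * ((L + 2) * m))) ((L + 2) * m) (fun R => E₁ R ∨ E₂ R) D ∧
      M ^ (L + 1) ≤ (2 : ℝ) ^ ((n : ℝ) * (n * m)) * ((n : ℝ) ^ 2 * m + 2) ^ (L + 1) * D.card := by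
  classical
  have hs₁ : A₁ ⊆ WW (n * m) n m := fun x hx => mem_WW.2 (hA₁.1 x hx)
  have hs₂ : A₂ ⊆ WW (n * m) n m := fun x hx => mem_WW.2 (hA₂.1 x hx)
  have hne₁ : A₁.Nonempty := card_pos.1 (by exact_mod_cast hM0.trans_le ha₁)
  have hne₂ : A₂.Nonempty := card_pos.1 (by exact_mod_cast hM0.trans_le ha₂)
  set N := (WW (n * m) n m).card with hN
  have hN0 : 0 < N := card_pos.2 (hne₁.mono hs₁)
  have hN0' : (0 : ℝ) < N := by exact_mod_cast hN0
  have hMN : M ≤ N := ha₁.trans (by exact_mod_cast card_le_card hs₁)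
  have hlog : 0 ≤ Real.log N := Real.log_nonneg (by exact_mod_cast hN0)
  have hN2 : (N : ℝ) ≤ 2 ^ ((n : ℝ) * (n * m)) := by
    have h1 : N ≤ n ^ (n * m) := by
      refine (card_le_univ _).trans (le_of_eq ?_)
      simp
    have h2 : n ^ (n * m) ≤ (2 ^ n) ^ (n * m) := Nat.pow_le_pow_left n.lt_two_pow_self.le _
    calc (N : ℝ) ≤ (((2 ^ n) ^ (n * m) : ℕ) : ℝ) := by exact_mod_cast h1.trans h2
      _ = 2 ^ ((n : ℝ) * (n * m)) := by
          push_cast
          rw [← pow_mul, ← Real.rpow_natCast]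
          push_cast
          rfl
  have hlogN : Real.log N + 2 ≤ (n : ℝ) ^ 2 * m + 2 := by
    have h1 : Real.log N ≤ (n : ℝ) * (n * m) := by
      calc Real.log N ≤ Real.log (2 ^ ((n : ℝ) * (n * m))) := Real.log_le_log hN0' hN2
        _ = (n : ℝ) * (n * m) * Real.log 2 := Real.log_rpow (by norm_num) _
        _ ≤ (n : ℝ) * (n * m) * 1 := by
            apply mul_le_mul_of_nonneg_left _ (by positivity)
            have := Real.log_two_lt_d9
            linarith
        _ = _ := mul_one _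
    have h2 : (n : ℝ) ^ 2 * m = n * (n * m) := by ring
    rw [h2]
    linarith
  obtain ⟨K, hK⟩ : ∃ K : ℕ, K + 1 = ⌈(N / M) * (Real.log N + 1)⌉₊ := by
    have h1 : 0 < ⌈(N / M) * (Real.log N + 1)⌉₊ := Nat.ceil_pos.2 (by positivity)
    exact ⟨⌈(N / M) * (Real.log N + 1)⌉₊ - 1, by omega⟩
  have hK1 : (N / M) * (Real.log N + 1) ≤ ((K + 1 : ℕ) : ℝ) := by rw [hK]; exact Nat.le_ceil _
  have hK2 : ((K + 1 : ℕ) : ℝ) ≤ (N / M) * (Real.log N + 2) := by
    have h1 : ((K + 1 : ℕ) : ℝ) < (N / M) * (Real.log N + 1) + 1 := by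
      rw [hK]
      exact Nat.ceil_lt_add_one (by positivity)
    have h2 : 1 ≤ N / M := (one_le_div hM0).2 hMN
    nlinarith
  have hcov : ∀ A : Finset (Fin (n * m) → Fin n), M ≤ A.card →
      (N : ℝ) * Real.log N < ((K + 1 : ℕ) : ℝ) * A.card := by
    intro A hA
    calc (N : ℝ) * Real.log N < N * (Real.log N + 1) := by nlinarith
      _ = ((N / M) * (Real.log N + 1)) * M := by field_simp
      _ ≤ ((K + 1 : ℕ) : ℝ) * A.card := mul_le_mul hK1 hA hM0.le (by positivity)
  obtain ⟨τ₁, hτ₁⟩ := cover hs₁ hne₁ (hcov A₁ ha₁)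
  obtain ⟨τ₂, hτ₂⟩ := cover hs₂ hne₂ (hcov A₂ ha₂)
  obtain ⟨D, hD, hDc⟩ := chain (L := L) hA₁ hA₂ τ₁ τ₂ hτ₁ hτ₂ (hne₁.mono hs₁)
  obtain ⟨h3, h4⟩ := hD.transport
    (finCongr (by ring : n * ((L + 2) * m) = (L + 2) * (n * m)))
  refine ⟨_, h3, ?_⟩
  rw [h4]
  rw [← hN] at hDc
  have hDc' : (N : ℝ) ^ (L + 2) ≤ ((K + 1 : ℕ) : ℝ) ^ (L + 1) * (N : ℝ) ^ 2 * D.card := by
    exact_mod_cast hDc
  obtain ⟨B, hB⟩ : ∃ B : ℝ, B = Real.log N + 2 := ⟨_, rfl⟩
  have hB0 : 0 < B := by rw [hB]; positivity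
  rw [← hB] at hK2 hlogN
  have h6 : (N : ℝ) ^ (L + 2) ≤ ((N / M) * B) ^ (L + 1) * (N : ℝ) ^ 2 * D.card := by
    refine hDc'.trans ?_
    apply mul_le_mul_of_nonneg_right _ (Nat.cast_nonneg _)
    apply mul_le_mul_of_nonneg_right _ (by positivity)
    exact pow_le_pow_left₀ (by positivity) hK2 _
  have h7 : ((N / M) * B) ^ (L + 1) * M ^ (L + 1) = (N : ℝ) ^ (L + 1) * B ^ (L + 1) := by
    rw [← mul_pow, ← mul_pow]
    congr 1
    field_simp
  have h8 : (N : ℝ) ^ (L + 2) * M ^ (L + 1) ≤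
      (N : ℝ) ^ (L + 2) * (N * B ^ (L + 1) * D.card) := by
    calc (N : ℝ) ^ (L + 2) * M ^ (L + 1)
        ≤ (((N / M) * B) ^ (L + 1) * (N : ℝ) ^ 2 * D.card) * M ^ (L + 1) :=
          mul_le_mul_of_nonneg_right h6 (by positivity)
      _ = (((N / M) * B) ^ (L + 1) * M ^ (L + 1)) * ((N : ℝ) ^ 2 * D.card) := by ring
      _ = (N : ℝ) ^ (L + 2) * (N * B ^ (L + 1) * D.card) := by rw [h7]; ring
  have h9 : M ^ (L + 1) ≤ N * B ^ (L + 1) * D.card := le_of_mul_le_mul_left h8 (by positivity)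
  refine h9.trans ?_
  apply mul_le_mul_of_nonneg_right _ (Nat.cast_nonneg _)
  exact mul_le_mul hN2 (pow_le_pow_left₀ hB0.le hlogN _) (by positivity) (by positivity)

theorem balWord_exists (n m : ℕ) : ∃ w : Fin (n * m) → Fin n, Bal m w := by
  classical
  refine ⟨fun i => (finProdFinEquiv.symm i).1, fun a => ?_⟩
  have h1 := card_filter_equiv (finProdFinEquiv (m := n) (n := m)).symm (fun z => z.1 = a)
  rw [h1]
  have h2 : (univ.filter (fun z : Fin n × Fin m => z.1 = a)) =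
      ({a} : Finset (Fin n)) ×ˢ (univ : Finset (Fin m)) := by
    ext ⟨b, z⟩
    simp only [mem_filter, mem_univ, true_and, mem_product, mem_singleton, and_true]
  rw [h2, card_product]
  simp

/-- adding a fixed balanced word -/
theorem Code.append {n m r : ℕ} {E : (Fin n → Fin n → Prop) → Prop}
    {C : Finset (Fin (n * m) → Fin n)} (h : Code (Fin (n * m)) m E C) :
    ∃ C' : Finset (Fin (n * (m + r)) → Fin n), Code (Fin (n * (m + r))) (m + r) E C' ∧
      C'.card = C.card := by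
  classical
  obtain ⟨w, hw⟩ := balWord_exists n r
  set f : (Fin (n * m) → Fin n) → (Fin (n * m) ⊕ Fin (n * r) → Fin n) :=
    fun x => Sum.elim x w with hf
  have hfi : Function.Injective f := by
    intro x y hxy
    funext i
    exact congrFun hxy (Sum.inl i)
  have hcode : Code (Fin (n * m) ⊕ Fin (n * r)) (m + r) E (C.image f) := by
    constructor
    · intro x hx a
      rw [mem_image] at hx
      obtain ⟨x, hx, rfl⟩ := hx
      have h1 := h.1 x hx a
      have h2 := hw a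
      rw [card_filter] at h1 h2 ⊢
      rw [Fintype.sum_sum_type]
      simp only [hf, Sum.elim_inl, Sum.elim_inr]
      rw [h1, h2]
    · intro x hx y hy hxy R hR
      rw [mem_image] at hx hy
      obtain ⟨x, hx, rfl⟩ := hx
      obtain ⟨y, hy, rfl⟩ := hy
      obtain ⟨i, hi⟩ := h.2 x hx y hy (fun h => hxy (by rw [h])) R hR
      exact ⟨Sum.inl i, hi⟩
  obtain ⟨h1, h2⟩ := hcode.transport
    ((finCongr (by ring : n * (m + r) = n * m + n * r)).trans finSumFinEquiv.symm)
  exact ⟨_, h1, by rw [h2, card_image_of_injective _ hfi]⟩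

/-- codes of balanced words of all lengths `n m` with at least `2 ^ (n m - c m ^ α)` words -/
def QA (n : ℕ) (E : (Fin n → Fin n → Prop) → Prop) (α : ℝ) : Prop :=
  ∃ c : ℝ, 0 ≤ c ∧ ∀ m : ℕ, 1 ≤ m → ∃ C : Finset (Fin (n * m) → Fin n),
    Code (Fin (n * m)) m E C ∧ (2 : ℝ) ^ ((n : ℝ) * m - c * (m : ℝ) ^ α) ≤ C.card

theorem le_four_rpow {x : ℝ} (hx : 0 ≤ x) : x ≤ 2 ^ (2 * x) := by
  have h1 : (2 : ℝ) ^ (2 * x) = Real.exp (Real.log 2 * (2 * x)) := by
    rw [Real.rpow_def_of_pos (by norm_num)]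
  rw [h1]
  have h2 := Real.add_one_le_exp (Real.log 2 * (2 * x))
  have h3 := Real.log_two_gt_d9
  nlinarith

theorem nat_le_rpow {m : ℕ} (hm : 1 ≤ m) {α : ℝ} (hα : 1 / 2 ≤ α) :
    (m : ℝ) ≤ 2 ^ (4 * (m : ℝ) ^ α) := by
  have hm1 : (1 : ℝ) ≤ m := by exact_mod_cast hm
  have h1 : Real.sqrt m ≤ (m : ℝ) ^ α := by
    rw [Real.sqrt_eq_rpow]
    exact Real.rpow_le_rpow_of_exponent_le hm1 hα
  have h2 := le_four_rpow (Real.sqrt_nonneg (m : ℝ))
  calc (m : ℝ) = Real.sqrt m * Real.sqrt m := (Real.mul_self_sqrt (by positivity)).symm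
    _ ≤ 2 ^ (2 * Real.sqrt m) * 2 ^ (2 * Real.sqrt m) :=
        mul_le_mul h2 h2 (Real.sqrt_nonneg _) (by positivity)
    _ = 2 ^ (4 * Real.sqrt m) := by
        rw [← Real.rpow_add (by norm_num)]
        congr 1
        ring
    _ ≤ _ := Real.rpow_le_rpow_of_exponent_le (by norm_num) (by linarith)

theorem one_le_rpow' {m : ℕ} (hm : 1 ≤ m) {α : ℝ} (hα : 0 ≤ α) : (1 : ℝ) ≤ (m : ℝ) ^ α :=
  Real.one_le_rpow (by exact_mod_cast hm) hα

theorem B_le {n m : ℕ} (hm : 1 ≤ m) {α : ℝ} (hα : 1 / 2 ≤ α) :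
    (n : ℝ) ^ 2 * m + 2 ≤ 2 ^ ((2 * (n : ℝ) ^ 2 + 8) * (m : ℝ) ^ α) := by
  have h1 := nat_le_rpow hm hα
  have h2 := one_le_rpow' hm (by linarith : (0 : ℝ) ≤ α)
  have hm1 : (1 : ℝ) ≤ m := by exact_mod_cast hm
  have h3 : (n : ℝ) ^ 2 + 2 ≤ 2 ^ (2 * ((n : ℝ) ^ 2 + 2)) := le_four_rpow (by positivity)
  calc (n : ℝ) ^ 2 * m + 2 ≤ ((n : ℝ) ^ 2 + 2) * m := by nlinarith
    _ ≤ 2 ^ (2 * ((n : ℝ) ^ 2 + 2)) * 2 ^ (4 * (m : ℝ) ^ α) :=
        mul_le_mul h3 h1 (by positivity) (by positivity)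
    _ = 2 ^ (2 * ((n : ℝ) ^ 2 + 2) + 4 * (m : ℝ) ^ α) := (Real.rpow_add (by norm_num) _ _).symm
    _ ≤ _ := by
        apply Real.rpow_le_rpow_of_exponent_le (by norm_num)
        have h4 : 2 * ((n : ℝ) ^ 2 + 2) ≤ 2 * ((n : ℝ) ^ 2 + 2) * (m : ℝ) ^ α :=
          le_mul_of_one_le_right (by positivity) h2
        nlinarith

theorem QA.step {n : ℕ} {E₁ E₂ : (Fin n → Fin n → Prop) → Prop} {α α' : ℝ}
    (hα : 1 / 2 ≤ α) (hα1 : α < 1) (hα' : α' * (2 - α) = 1)
    (h₁ : QA n E₁ α) (h₂ : QA n E₂ α) : QA n (fun R => E₁ R ∨ E₂ R) α' := by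
  classical
  obtain ⟨c₁, hc₁, H₁⟩ := h₁
  obtain ⟨c₂, hc₂, H₂⟩ := h₂
  obtain ⟨c, hc⟩ : ∃ c, c = max c₁ c₂ := ⟨_, rfl⟩
  have hc1 : c₁ ≤ c := by rw [hc]; exact le_max_left _ _
  have hc2 : c₂ ≤ c := by rw [hc]; exact le_max_right _ _
  have hc0 : 0 ≤ c := hc₁.trans hc1
  have hα'0 : 0 < α' := by nlinarith
  obtain ⟨c', hc'⟩ : ∃ c' : ℝ, c' = 2 * (2 * n + (n : ℝ) ^ 2) + (c + (2 * (n : ℝ) ^ 2 + 8)) :=
    ⟨_, rfl⟩
  have hc'0 : 0 ≤ c' := by rw [hc']; positivity
  refine ⟨c', hc'0, fun m hm => ?_⟩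
  have hm1 : (1 : ℝ) ≤ m := by exact_mod_cast hm
  have hm0 : (0 : ℝ) < m := by linarith
  obtain ⟨P, hP⟩ : ∃ P : ℝ, P = (m : ℝ) ^ α' := ⟨_, rfl⟩
  have hP1 : 1 ≤ P := by rw [hP]; exact one_le_rpow' hm hα'0.le
  rw [← hP]
  obtain ⟨m₀, hm₀⟩ : ∃ m₀ : ℕ, m₀ = ⌈P⌉₊ := ⟨_, rfl⟩
  have hPm : P ≤ m₀ := by rw [hm₀]; exact Nat.le_ceil _
  have hmP : (m₀ : ℝ) ≤ 2 * P := by
    have : (m₀ : ℝ) < P + 1 := by rw [hm₀]; exact Nat.ceil_lt_add_one (by linarith)
    linarith
  have hm₀1 : 1 ≤ m₀ := by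
    have : (1 : ℝ) ≤ m₀ := hP1.trans hPm
    exact_mod_cast this
  obtain ⟨k, hk⟩ : ∃ k, k = m / m₀ := ⟨_, rfl⟩
  obtain ⟨r, hr⟩ : ∃ r, r = m % m₀ := ⟨_, rfl⟩
  have hkr : k * m₀ + r = m := by rw [hk, hr]; exact Nat.div_add_mod' m m₀
  have hr1 : r < m₀ := by rw [hr]; exact Nat.mod_lt _ (by omega)
  by_cases hk2 : k < 2
  · obtain ⟨w, hw⟩ := balWord_exists n m
    refine ⟨{w}, ⟨?_, ?_⟩, ?_⟩
    · intro x hx
      rw [mem_singleton] at hx
      rw [hx]
      exact hw
    · intro x hx y hy hxy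
      rw [mem_singleton] at hx hy
      exact absurd (hx.trans hy.symm) hxy
    · rw [card_singleton, Nat.cast_one]
      apply Real.rpow_le_one_of_one_le_of_nonpos (by norm_num)
      have h1 : m ≤ 2 * m₀ := by
        have : k * m₀ ≤ 1 * m₀ := Nat.mul_le_mul_right _ (by omega)
        omega
      have h2 : (m : ℝ) ≤ 2 * m₀ := by exact_mod_cast h1
      have h3 : (n : ℝ) * m ≤ n * (4 * P) :=
        mul_le_mul_of_nonneg_left (by linarith) (Nat.cast_nonneg _)
      have h4 : (4 * n : ℝ) * P ≤ c' * P := by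
        apply mul_le_mul_of_nonneg_right _ (by linarith)
        rw [hc']
        nlinarith [sq_nonneg (n : ℝ)]
      linarith
  · obtain ⟨L, hL⟩ : ∃ L, k = L + 2 := ⟨k - 2, by omega⟩
    obtain ⟨A₁, hA₁, ha₁⟩ := H₁ m₀ hm₀1
    obtain ⟨A₂, hA₂, ha₂⟩ := H₂ m₀ hm₀1
    obtain ⟨Q, hQ⟩ : ∃ Q : ℝ, Q = (m₀ : ℝ) ^ α := ⟨_, rfl⟩
    have hQ0 : 0 ≤ Q := by rw [hQ]; positivity
    have hB := B_le (n := n) hm₀1 hα
    rw [← hQ] at ha₁ ha₂ hB
    obtain ⟨M, hM⟩ : ∃ M : ℝ, M = (2 : ℝ) ^ ((n : ℝ) * m₀ - c * Q) := ⟨_, rfl⟩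
    have hM0 : 0 < M := by rw [hM]; positivity
    have hM1 : M ≤ A₁.card := by
      refine le_trans ?_ ha₁
      rw [hM]
      apply Real.rpow_le_rpow_of_exponent_le (by norm_num)
      have := mul_le_mul_of_nonneg_right hc1 hQ0
      linarith
    have hM2 : M ≤ A₂.card := by
      refine le_trans ?_ ha₂
      rw [hM]
      apply Real.rpow_le_rpow_of_exponent_le (by norm_num)
      have := mul_le_mul_of_nonneg_right hc2 hQ0
      linarith
    obtain ⟨D, hD, hDc⟩ := step_core (L := L) hM0 hA₁ hA₂ hM1 hM2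
    have hmm : (L + 2) * m₀ + r = m := by rw [← hL]; exact hkr
    have happ : ∃ C' : Finset (Fin (n * m) → Fin n),
        Code (Fin (n * m)) m (fun R => E₁ R ∨ E₂ R) C' ∧ C'.card = D.card := by
      have := hD.append (r := r)
      rw [hmm] at this
      exact this
    obtain ⟨D', hD', hDc'⟩ := happ
    have key : (2 : ℝ) ^ ((n : ℝ) * m - c' * P) ≤ D.card := by
      obtain ⟨u, hu⟩ : ∃ u : ℝ, u = 2 * (n : ℝ) ^ 2 + 8 := ⟨_, rfl⟩
      rw [← hu] at hB hc'
      have hu0 : 0 ≤ u := by rw [hu]; positivity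
      have g1 : ((n : ℝ) ^ 2 * m₀ + 2) ^ (L + 1) ≤ 2 ^ ((u * Q) * (L + 1)) := by
        calc ((n : ℝ) ^ 2 * m₀ + 2) ^ (L + 1) ≤ (2 ^ (u * Q)) ^ (L + 1) :=
              pow_le_pow_left₀ (by positivity) hB _
          _ = 2 ^ ((u * Q) * (L + 1)) := by
              rw [← Real.rpow_natCast, ← Real.rpow_mul (by norm_num)]
              push_cast
              rfl
      have g2 : M ^ (L + 1) = 2 ^ (((n : ℝ) * m₀ - c * Q) * (L + 1)) := by
        rw [hM, ← Real.rpow_natCast, ← Real.rpow_mul (by norm_num)]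
        push_cast
        rfl
      have g3 : M ^ (L + 1) ≤ (2 ^ ((n : ℝ) * (n * m₀)) * 2 ^ ((u * Q) * (L + 1))) * D.card := by
        refine hDc.trans ?_
        apply mul_le_mul_of_nonneg_right _ (Nat.cast_nonneg _)
        exact mul_le_mul_of_nonneg_left g1 (by positivity)
      have g4 : ((L : ℝ) + 1) * Q ≤ P := by
        have f1 : ((L : ℝ) + 1) * m₀ ≤ m := by
          have : (L + 1) * m₀ ≤ m := by
            calc (L + 1) * m₀ ≤ (L + 2) * m₀ := Nat.mul_le_mul_right _ (by omega)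
              _ ≤ m := by omega
          exact_mod_cast this
        have hm₀0 : (0 : ℝ) < m₀ := by exact_mod_cast hm₀1
        have f2 : Q = m₀ * (m₀ : ℝ) ^ (α - 1) := by
          rw [hQ, ← Real.rpow_one_add' hm₀0.le (by linarith)]
          congr 1
          ring
        have f3 : (m₀ : ℝ) ^ (α - 1) ≤ P ^ (α - 1) :=
          Real.rpow_le_rpow_of_nonpos (by linarith) hPm (by linarith)
        have f4 : (m : ℝ) * P ^ (α - 1) = P := by
          rw [hP, ← Real.rpow_mul hm0.le, ← Real.rpow_one_add' hm0.le]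
          · congr 1
            nlinarith
          · nlinarith
        calc ((L : ℝ) + 1) * Q = (((L : ℝ) + 1) * m₀) * (m₀ : ℝ) ^ (α - 1) := by rw [f2]; ring
          _ ≤ m * P ^ (α - 1) := mul_le_mul f1 f3 (by positivity) hm0.le
          _ = P := f4
      have g5 : (2 : ℝ) ^ ((n : ℝ) * m - c' * P) *
          (2 ^ ((n : ℝ) * (n * m₀)) * 2 ^ ((u * Q) * (L + 1))) ≤ M ^ (L + 1) := by
        rw [g2, ← Real.rpow_add (by norm_num), ← Real.rpow_add (by norm_num)]
        apply Real.rpow_le_rpow_of_exponent_le (by norm_num)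
        have e1 : (m : ℝ) = (L + 2) * m₀ + r := by
          rw [← hmm]
          push_cast
          ring
        have e2 : (r : ℝ) ≤ m₀ := by exact_mod_cast hr1.le
        have hn0 : (0 : ℝ) ≤ n := Nat.cast_nonneg _
        have e3 : (n : ℝ) * r ≤ n * m₀ := mul_le_mul_of_nonneg_left e2 hn0
        have e4 : (c + u) * (((L : ℝ) + 1) * Q) ≤ (c + u) * P :=
          mul_le_mul_of_nonneg_left g4 (by linarith)
        have e5 : (2 * n + (n : ℝ) ^ 2) * m₀ ≤ (2 * n + (n : ℝ) ^ 2) * (2 * P) :=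
          mul_le_mul_of_nonneg_left hmP (by positivity)
        rw [hc', e1]
        nlinarith
      have g6 : (0 : ℝ) < 2 ^ ((n : ℝ) * (n * m₀)) * 2 ^ ((u * Q) * (L + 1)) := by positivity
      have g7 := g5.trans g3
      rw [mul_comm] at g7
      exact le_of_mul_le_mul_left g7 g6
    exact ⟨D', hD', by rw [hDc']; exact key⟩

/-! ### The base codes -/

/-- the pairs of letters with difference `d` (the letters `0, ..., s-1` stand for `Z_s`) -/
def rel {s : ℕ} [NeZero s] (d : ZMod s) : Fin s → Fin s → Prop :=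
  fun a b => ZMod.finEquiv s a - ZMod.finEquiv s b = d

/-- the shift by `d` -/
def sh {s : ℕ} [NeZero s] (d : ZMod s) : Fin s ≃ Fin s :=
  (ZMod.finEquiv s).toEquiv.trans ((Equiv.addRight d).trans (ZMod.finEquiv s).toEquiv.symm)

theorem finEquiv_sh {s : ℕ} [NeZero s] (d : ZMod s) (a : Fin s) :
    ZMod.finEquiv s (sh d a) = ZMod.finEquiv s a + d := by
  have h := (ZMod.finEquiv s).toEquiv.apply_symm_apply (ZMod.finEquiv s a + d)
  exact h

theorem sh_ne {s : ℕ} [NeZero s] {d : ZMod s} (hd : d ≠ 0) (a : Fin s) : sh d a ≠ a := by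
  intro h
  have h1 := finEquiv_sh d a
  rw [h] at h1
  apply hd
  have h2 : ZMod.finEquiv s a + d = ZMod.finEquiv s a + 0 := by rw [← h1, add_zero]
  exact add_left_cancel h2

/-- the word of the sets `A a` -/
def wd {s m : ℕ} [NeZero s] (d : ZMod s) (A : Fin s → Finset (Fin m)) :
    Fin s × Fin m → Fin s := fun z => if z.2 ∈ A z.1 then z.1 else sh d z.1

theorem bal_wd {s m k : ℕ} [NeZero s] {d : ZMod s} (hd : d ≠ 0) {A : Fin s → Finset (Fin m)}
    (hA : ∀ a, (A a).card = k) (hk : k ≤ m) : Bal m (wd d A) := by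
  classical
  intro b
  obtain ⟨c, rfl⟩ := (sh d).surjective b
  have h1 : (univ.filter (fun z => wd d A z = sh d c)) =
      ({sh d c} : Finset (Fin s)) ×ˢ A (sh d c) ∪ ({c} : Finset (Fin s)) ×ˢ (A c)ᶜ := by
    ext ⟨a, z⟩
    simp only [wd, mem_filter, mem_univ, true_and, mem_union, mem_product, mem_singleton,
      mem_compl]
    by_cases hz : z ∈ A a
    · rw [if_pos hz]
      constructor
      · rintro rfl
        exact Or.inl ⟨rfl, hz⟩
      · rintro (⟨h, _⟩ | ⟨h, h'⟩)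
        · exact h
        · subst h
          exact absurd hz h'
    · rw [if_neg hz]
      constructor
      · intro h
        have := (sh d).injective h
        subst this
        exact Or.inr ⟨rfl, hz⟩
      · rintro (⟨h, h'⟩ | ⟨h, _⟩)
        · subst h
          exact absurd h' hz
        · rw [h]
  have h2 : Disjoint (({sh d c} : Finset (Fin s)) ×ˢ A (sh d c))
      (({c} : Finset (Fin s)) ×ˢ (A c)ᶜ) := by
    rw [Finset.disjoint_left]
    rintro ⟨a, z⟩ h2 h3
    rw [mem_product, mem_singleton] at h2 h3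
    exact sh_ne hd c (h2.1.symm.trans h3.1)
  rw [h1, card_union_of_disjoint h2, card_product, card_product, card_compl, hA, hA]
  simp only [card_singleton, Fintype.card_fin, one_mul]
  omega

theorem qa_base {s : ℕ} [NeZero s] {d : ZMod s} (hd : d ≠ 0) {α : ℝ} (hα : 1 / 2 ≤ α) :
    QA s (fun R => R = rel d) α := by
  classical
  refine ⟨8 * s, by positivity, fun m hm => ?_⟩
  set F : Finset (Fin s → Finset (Fin m)) :=
    Fintype.piFinset (fun _ => powersetCard (m / 2) univ) with hF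
  have hFm : ∀ A ∈ F, ∀ a, (A a).card = m / 2 := by
    intro A hA a
    rw [hF, Fintype.mem_piFinset] at hA
    exact (mem_powersetCard.1 (hA a)).2
  have hFc : F.card = (m.choose (m / 2)) ^ s := by
    rw [hF, Fintype.card_piFinset_const, card_powersetCard, card_univ, Fintype.card_fin]
  have hinj : Function.Injective
      (wd d : (Fin s → Finset (Fin m)) → (Fin s × Fin m → Fin s)) := by
    intro A B hAB
    funext a
    ext z
    have h1 := congrFun hAB (a, z)
    simp only [wd] at h1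
    by_cases hA : z ∈ A a <;> by_cases hB : z ∈ B a
    · simp [hA, hB]
    · simp only [hA, hB, if_true, if_false] at h1
      exact absurd h1.symm (sh_ne hd a)
    · simp only [hA, hB, if_true, if_false] at h1
      exact absurd h1 (sh_ne hd a)
    · simp [hA, hB]
  have hcode : Code (Fin s × Fin m) m (fun R => R = rel d) (F.image (wd d)) := by
    constructor
    · intro x hx
      rw [mem_image] at hx
      obtain ⟨A, hA, rfl⟩ := hx
      exact bal_wd hd (hFm A hA) (Nat.div_le_self _ _)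
    · intro x hx y hy hxy R hR
      subst hR
      rw [mem_image] at hx hy
      obtain ⟨A, hA, rfl⟩ := hx
      obtain ⟨B, hB, rfl⟩ := hy
      obtain ⟨a, ha⟩ : ∃ a, A a ≠ B a := by
        by_contra hcon
        push Not at hcon
        exact hxy (by rw [funext hcon])
      obtain ⟨z, hz1, hz2⟩ : ∃ z, z ∈ B a ∧ z ∉ A a := by
        by_contra hcon
        push Not at hcon
        exact ha (eq_of_subset_of_card_le hcon (by rw [hFm A hA, hFm B hB])).symm
      refine ⟨(a, z), ?_⟩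
      simp only [wd, rel, hz1, hz2, if_true, if_false]
      rw [finEquiv_sh]
      ring
  obtain ⟨h1, h2⟩ := hcode.transport (finProdFinEquiv (m := s) (n := m)).symm
  refine ⟨_, h1, ?_⟩
  rw [h2, card_image_of_injective _ hinj, hFc]
  obtain ⟨Q, hQ⟩ : ∃ Q : ℝ, Q = (m : ℝ) ^ α := ⟨_, rfl⟩
  have hm2 := nat_le_rpow hm hα
  have hQ1 := one_le_rpow' hm (by linarith : (0 : ℝ) ≤ α)
  rw [← hQ] at hm2 hQ1 ⊢
  -- `2 ^ m ≤ (m + 1) C(m, m/2) ≤ 2 ^ (8 Q) C(m, m/2)`
  have h4 : 2 ^ m ≤ (m + 1) * m.choose (m / 2) := by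
    rw [← Nat.sum_range_choose m]
    calc ∑ i ∈ range (m + 1), m.choose i ≤ ∑ _i ∈ range (m + 1), m.choose (m / 2) :=
          sum_le_sum (fun i _ => Nat.choose_le_middle i m)
      _ = _ := by rw [sum_const, card_range, smul_eq_mul]
  have h4' : (2 : ℝ) ^ (m : ℝ) ≤ (m + 1) * ((m.choose (m / 2) : ℕ) : ℝ) := by
    rw [Real.rpow_natCast]
    exact_mod_cast h4
  have hm1 : (1 : ℝ) ≤ m := by exact_mod_cast hm
  have h6 : (m : ℝ) + 1 ≤ 2 ^ (8 * Q) := by
    calc (m : ℝ) + 1 ≤ 2 ^ (1 : ℝ) * m := by rw [Real.rpow_one]; linarith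
      _ ≤ 2 ^ (4 * Q) * 2 ^ (4 * Q) := by
          apply mul_le_mul _ hm2 (by positivity) (by positivity)
          exact Real.rpow_le_rpow_of_exponent_le (by norm_num) (by linarith)
      _ = _ := by
          rw [← Real.rpow_add (by norm_num)]
          congr 1
          ring
  have h5 : (2 : ℝ) ^ ((m : ℝ) - 8 * Q) ≤ ((m.choose (m / 2) : ℕ) : ℝ) := by
    have h7 : (2 : ℝ) ^ (8 * Q) * 2 ^ ((m : ℝ) - 8 * Q) = 2 ^ (m : ℝ) := by
      rw [← Real.rpow_add (by norm_num)]
      congr 1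
      ring
    have h8 : (2 : ℝ) ^ (8 * Q) * 2 ^ ((m : ℝ) - 8 * Q) ≤
        2 ^ (8 * Q) * ((m.choose (m / 2) : ℕ) : ℝ) := by
      rw [h7]
      exact h4'.trans (mul_le_mul_of_nonneg_right h6 (Nat.cast_nonneg _))
    exact le_of_mul_le_mul_left h8 (by positivity)
  push_cast
  calc (2 : ℝ) ^ ((s : ℝ) * m - 8 * s * Q) = (2 ^ ((m : ℝ) - 8 * Q)) ^ s := by
        rw [← Real.rpow_natCast, ← Real.rpow_mul (by norm_num)]
        congr 1
        ring
    _ ≤ _ := pow_le_pow_left₀ (by positivity) h5 _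

theorem QA.mono {n : ℕ} {E E' : (Fin n → Fin n → Prop) → Prop} {α : ℝ} (h : QA n E α)
    (hE : ∀ R, E' R → E R) : QA n E' α := by
  obtain ⟨c, hc, H⟩ := h
  refine ⟨c, hc, fun m hm => ?_⟩
  obtain ⟨C, hC, hCc⟩ := H m hm
  exact ⟨C, ⟨hC.1, fun x hx y hy hxy R hR => hC.2 x hx y hy hxy R (hE R hR)⟩, hCc⟩

theorem qa_all {s : ℕ} [NeZero s] {d₀ : ZMod s} (hd₀ : d₀ ≠ 0) (D : Finset (ZMod s))
    (hD : ∀ d ∈ D, d ≠ 0) :
    QA s (fun R => ∃ d, (d = d₀ ∨ d ∈ D) ∧ R = rel d) (((D.card : ℝ) + 1) / (D.card + 2)) := by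
  classical
  induction D using Finset.induction_on with
  | empty =>
    have h : (1 : ℝ) / 2 ≤ (((∅ : Finset (ZMod s)).card : ℝ) + 1) /
        ((∅ : Finset (ZMod s)).card + 2) := by
      rw [card_empty, Nat.cast_zero]
      norm_num
    refine (qa_base hd₀ h).mono ?_
    rintro R ⟨d, hd | hd, rfl⟩
    · rw [hd]
    · exact absurd hd (notMem_empty _)
  | insert d D hd ih =>
    have h3 := ih (fun z hz => hD z (mem_insert_of_mem hz))
    obtain ⟨k, hk⟩ : ∃ k : ℝ, k = (D.card : ℝ) := ⟨_, rfl⟩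
    have hk0 : 0 ≤ k := by rw [hk]; positivity
    rw [card_insert_of_notMem hd]
    push_cast
    rw [← hk] at h3 ⊢
    have g1 : (1 : ℝ) / 2 ≤ (k + 1) / (k + 2) := by
      rw [div_le_div_iff₀ (by norm_num) (by linarith)]
      linarith
    have g2 : (k + 1) / (k + 2) < 1 := by
      rw [div_lt_one (by linarith)]
      linarith
    have g3 : (k + 1 + 1) / (k + 1 + 2) * (2 - (k + 1) / (k + 2)) = 1 := by
      have a1 : k + 2 ≠ 0 := by linarith
      have a2 : k + 1 + 2 ≠ 0 := by linarith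
      field_simp
      ring
    have h4 := qa_base (hD d (mem_insert_self _ _)) g1
    refine (QA.step g1 g2 g3 h3 h4).mono ?_
    rintro R ⟨d', hd', rfl⟩
    rw [mem_insert] at hd'
    rcases hd' with h | h | h
    · left
      exact ⟨d', Or.inl h, rfl⟩
    · right
      rw [h]
    · left
      exact ⟨d', Or.inr h, rfl⟩

/-! ### Covering families -/

theorem bdd (s q : ℕ) [NeZero s] :
    BddAbove {n : ℕ | ∃ F : Finset (Fin q → ZMod s), IsCovering s q F ∧ F.card = n} := by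
  refine ⟨Fintype.card (Fin q → ZMod s), ?_⟩
  rintro n ⟨F, _, rfl⟩
  exact card_le_univ F

theorem le_R {s q : ℕ} [NeZero s] {F : Finset (Fin q → ZMod s)} (hF : IsCovering s q F) :
    F.card ≤ R s q := le_csSup (bdd s q) ⟨F, hF, rfl⟩

theorem R_lower {s : ℕ} (hs : 2 ≤ s) :
    ∃ c : ℝ, ∀ q : ℕ, 1 ≤ q → (2 : ℝ) ^ ((q : ℝ) - c * (q : ℝ) ^ (1 - 1 / (s : ℝ))) ≤ R s q := by
  classical
  have : NeZero s := ⟨by omega⟩
  have : Fact (1 < s) := ⟨hs⟩
  have h01 : (1 : ZMod s) ≠ 0 := one_ne_zero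
  obtain ⟨D, hDdef⟩ : ∃ D : Finset (ZMod s), D = (univ.erase 0).erase 1 := ⟨_, rfl⟩
  have hDc : D.card = s - 2 := by
    rw [hDdef, card_erase_of_mem, card_erase_of_mem (mem_univ _), card_univ, ZMod.card]
    · omega
    · exact mem_erase.2 ⟨h01, mem_univ _⟩
  have hD0 : ∀ d ∈ D, d ≠ 0 := by
    intro d hd
    rw [hDdef, mem_erase, mem_erase] at hd
    exact hd.2.1
  obtain ⟨c, hc0, H⟩ := qa_all h01 D hD0
  have hs2 : (2 : ℝ) ≤ s := by exact_mod_cast hs
  have hα : ((D.card : ℝ) + 1) / (D.card + 2) = 1 - 1 / (s : ℝ) := by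
    rw [hDc, Nat.cast_sub hs]
    have : (s : ℝ) ≠ 0 := by linarith
    push_cast
    rw [show (s : ℝ) - 2 + 2 = s by ring, show (s : ℝ) - 2 + 1 = s - 1 by ring, sub_div,
      div_self this]
  rw [hα] at H
  obtain ⟨α, hαd⟩ : ∃ α : ℝ, α = 1 - 1 / (s : ℝ) := ⟨_, rfl⟩
  have hα0 : 0 ≤ α := by
    rw [hαd, sub_nonneg, div_le_one (by linarith)]
    linarith
  rw [← hαd] at H ⊢
  refine ⟨c + (s + 1), fun q hq => ?_⟩
  have hqα := one_le_rpow' hq hα0
  obtain ⟨m, hm⟩ : ∃ m, m = (q - 1) / s := ⟨_, rfl⟩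
  have hm1 : s * m ≤ q - 1 := by rw [hm]; exact Nat.mul_div_le _ _
  have hm2 : q - 1 < s * m + s := by
    rw [hm]
    have := Nat.lt_mul_div_succ (q - 1) (by omega : 0 < s)
    rw [mul_add, mul_one] at this
    exact this
  have hq2 : (q : ℝ) ≤ s * m + (s + 1) := by
    have : q ≤ s * m + (s + 1) := by omega
    exact_mod_cast this
  rcases Nat.eq_zero_or_pos m with h0 | hmp
  · have h1 : (1 : ℝ) ≤ R s q := by
      have h : IsCovering s q {fun _ => 0} := by
        intro v hv w hw hvw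
        rw [mem_singleton] at hv hw
        exact absurd (hv.trans hw.symm) hvw
      have := le_R h
      rw [card_singleton] at this
      exact_mod_cast this
    refine le_trans ?_ h1
    apply Real.rpow_le_one_of_one_le_of_nonpos (by norm_num)
    rw [h0, Nat.cast_zero, mul_zero, zero_add] at hq2
    have h2 : (s + 1 : ℝ) * 1 ≤ (c + (s + 1)) * (q : ℝ) ^ α :=
      mul_le_mul (by linarith) hqα (by norm_num) (by positivity)
    linarith
  · obtain ⟨C, hC, hCc⟩ := H m hmp
    set v : (Fin (s * m) → Fin s) → (Fin q → ZMod s) :=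
      fun x i => if h : i.val < s * m then ZMod.finEquiv s (x ⟨i.val, h⟩) else 0 with hv
    have hvi : Function.Injective v := by
      intro x y hxy
      funext j
      have h1 := congrFun hxy ⟨j.val, by omega⟩
      simp only [hv, j.isLt, dif_pos, Fin.eta] at h1
      exact (ZMod.finEquiv s).injective h1
    have hcov : IsCovering s q (C.image v) := by
      intro x hx y hy hxy a
      rw [mem_image] at hx hy
      obtain ⟨x, hx, rfl⟩ := hx
      obtain ⟨y, hy, rfl⟩ := hy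
      by_cases ha : a = 0
      · refine ⟨⟨q - 1, by omega⟩, ?_⟩
        simp only [hv, dif_neg (not_lt.2 hm1), ha, sub_zero]
      · obtain ⟨i, hi⟩ := hC.2 x hx y hy (fun h => hxy (by rw [h])) (rel a) ⟨a, by
          by_cases h1 : a = 1
          · exact Or.inl h1
          · right
            rw [hDdef]
            exact mem_erase.2 ⟨h1, mem_erase.2 ⟨ha, mem_univ _⟩⟩, rfl⟩
        refine ⟨⟨i.val, by omega⟩, ?_⟩
        simp only [hv, i.isLt, dif_pos, Fin.eta]
        exact hi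
    have h1 := le_R hcov
    rw [card_image_of_injective _ hvi] at h1
    have h2 : ((C.card : ℕ) : ℝ) ≤ R s q := by exact_mod_cast h1
    refine (le_trans ?_ hCc).trans h2
    apply Real.rpow_le_rpow_of_exponent_le (by norm_num)
    have hmq : (m : ℝ) ≤ q := by
      have : m ≤ q := by
        have : 1 * m ≤ s * m := Nat.mul_le_mul_right _ (by omega)
        omega
      exact_mod_cast this
    have h3 : (m : ℝ) ^ α ≤ (q : ℝ) ^ α := Real.rpow_le_rpow (Nat.cast_nonneg _) hmq hα0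
    have h4 : c * (m : ℝ) ^ α ≤ c * (q : ℝ) ^ α := mul_le_mul_of_nonneg_left h3 hc0
    have h5 : (s + 1 : ℝ) * 1 ≤ (s + 1) * (q : ℝ) ^ α :=
      mul_le_mul_of_nonneg_left hqα (by positivity)
    have h6 : (c + ((s : ℝ) + 1)) * (q : ℝ) ^ α = c * (q : ℝ) ^ α + (s + 1) * (q : ℝ) ^ α := by
      ring
    rw [h6]
    linarith

theorem R_upper {s : ℕ} (hs : 2 ≤ s) (q : ℕ) : R s q ≤ 2 ^ q := by
  classical
  have : NeZero s := ⟨by omega⟩
  have : Fact (1 < s) := ⟨hs⟩
  have hne : {n : ℕ | ∃ F : Finset (Fin q → ZMod s), IsCovering s q F ∧ F.card = n}.Nonempty :=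
    ⟨0, ∅, fun v hv => absurd hv (notMem_empty _), rfl⟩
  refine csSup_le hne ?_
  rintro n ⟨F, hF, rfl⟩
  have h1 := card_le_two_pow (ι := F) (q := q) (fun i j => (((i.1 j).val : ℕ) : ℚ))
    (fun i j => (((i.1 j + 1).val : ℕ) : ℚ)) ?_ ?_
  · simpa using h1
  · intro i
    rw [Finset.prod_ne_zero_iff]
    intro j _ h
    rw [sub_eq_zero] at h
    have h2 : (i.1 j).val = (i.1 j + 1).val := by exact_mod_cast h
    have h3 := ZMod.val_injective s h2
    have h4 : i.1 j + 0 = i.1 j + 1 := by rw [add_zero]; exact h3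
    exact one_ne_zero (add_left_cancel h4).symm
  · intro i k hik
    obtain ⟨j, hj⟩ := hF i.1 i.2 k.1 k.2 (fun h => hik (Subtype.ext h)) 1
    apply Finset.prod_eq_zero (mem_univ j)
    have : i.1 j = k.1 j + 1 := by rw [← hj]; ring
    rw [this, sub_self]

/-- **Main theorem.** For every `s ≥ 2` there is a constant `c` with
`2 ^ (q - c q ^ (1 - 1/s)) ≤ R(s,q) ≤ 2 ^ q` for all `q ≥ 1`. -/
theorem result (s : ℕ) (hs : 2 ≤ s) : ∃ c : ℝ, ∀ q : ℕ, 1 ≤ q →
    (2 : ℝ) ^ ((q : ℝ) - c * (q : ℝ) ^ (1 - 1 / (s : ℝ))) ≤ R s q ∧ (R s q : ℝ) ≤ 2 ^ q := by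
  obtain ⟨c, hc⟩ := R_lower hs
  exact ⟨c, fun q hq => ⟨hc q hq, by exact_mod_cast R_upper hs q⟩⟩

end Pool.Agent.Results.MP_28ad66_co.ExponentialRate
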